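import Pool.Agent.Lib_helper48.MR.B
import Pool.Agent.Lib_helper48.LM2.R2
import Pool.Agent.Lib_helper99.MR.Cas

/-! A diagonalisable similitude normalising an irreducible symplectic Lie algebra, more than half of
whose eigenvalues are equal and whose other eigenvalues are simple. -/

set_option autoImplicit false
set_option linter.unusedSectionVars false

namespace Pool.Agent.MR

open Module Pool.Agent.RM

attribute [local instance 100] LieRing.ofAssociativeRing

section one

variable {K : Type*} [Field K] [CharZero K] [IsAlgClosed K]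
variable {V : Type*} [AddCommGroup V] [Module K V] [FiniteDimensional K V]

theorem one_le (L : LieSubalgebra K (Module.End K V)) {s : V ≃ₗ[K] V} {c : K}
    (hk : ∀ ζ : K, ζ ≠ c → finrank K (Module.End.eigenspace (s : Module.End K V) ζ) ≤ 1)
    {ι : Type*} [Fintype ι] (b : Basis ι K V) (x : ι → K) (hb : ∀ i, s (b i) = x i • b i)
    (F : Finset ι) (hF : ∀ i ∈ F, x i ≠ c)
    (h : ∀ t ∈ L, Hm s 1 t → (∀ i ∈ F, t (b i) = 0) → t = 0) :
    finrank K (One L s) ≤ F.card := by
  classical
  let Φ : One L s →ₗ[K] (F → K) :=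
    { toFun := fun t i => b.repr ((t : Module.End K V) (b i)) i
      map_add' := fun t u => by
        funext i
        show b.repr (((t : Module.End K V) + u) (b i)) i = _
        rw [LinearMap.add_apply, map_add]
        rfl
      map_smul' := fun a t => by
        funext i
        show b.repr ((a • (t : Module.End K V)) (b i)) i = _
        rw [LinearMap.smul_apply, map_smul]
        rfl }
  have hΦ : Function.Injective Φ := by
    rw [← LinearMap.ker_eq_bot, LinearMap.ker_eq_bot']
    intro t ht
    apply Subtype.ext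
    refine h _ t.2.1 t.2.2 fun i hi => ?_
    have h1 : b.repr ((t : Module.End K V) (b i)) i = 0 := congrFun ht ⟨i, hi⟩
    have h2 : s ((t : Module.End K V) (b i)) = x i • (t : Module.End K V) (b i) := by
      have h3 := t.2.2.eig (hb i)
      rwa [one_mul] at h3
    obtain ⟨a, ha⟩ := line_span (hk _ (hF i hi)) (b.ne_zero i) (hb i) h2
    rw [ha, map_smul, b.repr_self, Finsupp.smul_apply, Finsupp.single_eq_same, smul_eq_mul,
      mul_one] at h1
    rw [ha, h1, zero_smul]
  have h1 := LinearMap.finrank_le_finrank_of_injective hΦ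
  rw [finrank_fintype_fun_eq_card, Fintype.card_coe] at h1
  exact h1

end one

section sym

variable {K : Type*} [Field K] [CharZero K] [IsAlgClosed K]
variable {V : Type*} [AddCommGroup V] [Module K V] [FiniteDimensional K V]

theorem term_zero {ω : LinearMap.BilinForm K V} (hω : ω.Nondegenerate)
    (halt : ∀ v w, ω v w = - ω w v) (L : LieSubalgebra K (Module.End K V))
    (hskew : ∀ x ∈ L, ∀ v w, ω (x v) w = - ω v (x w))
    {s : V ≃ₗ[K] V} (hD : Diag (s : Module.End K V)) {χ : K}
    (hχ : ∀ v w, ω (s v) (s w) = χ * ω v w) {c : K} (hc0 : c ≠ 0) (hcc : c * c = χ)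
    (hk : ∀ ζ : K, ζ ≠ c → finrank K (Module.End.eigenspace (s : Module.End K V) ζ) ≤ 1)
    {v : V} (hv : s v = c • v) (hv0 : ∀ t ∈ L, Hm s 1 t → t v = 0) {μ : K} (hμ0 : μ ≠ 0)
    {x y : Module.End K V} (hx : x ∈ L) (hy : y ∈ L) (hx' : Hm s μ x) (hy' : Hm s μ⁻¹ y) :
    x (y v) = 0 := by
  by_cases hμ : μ = 1
  · subst hμ
    rw [inv_one] at hy'
    rw [hv0 y hy hy', map_zero]
  by_contra hne
  have h1 : x (y v) = y (x v) := by
    have h2 := hx'.brk hy'
    rw [mul_inv_cancel₀ hμ0] at h2
    have h3 := hv0 _ (L.lie_mem hx hy) h2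
    exact sub_eq_zero.mp h3
  have he : s (y v) = (μ⁻¹ * c) • y v := hy'.eig hv
  have hf : s (x v) = (μ * c) • x v := hx'.eig hv
  have he0 : y v ≠ 0 := fun h => hne (by rw [h, map_zero])
  have hf0 : x v ≠ 0 := fun h => hne (by rw [h1, h, map_zero])
  have h2 : ω (x v) (y v) = 0 := by
    have k1 : ω (x v) (y v) = - ω v (x (y v)) := hskew x hx v (y v)
    have k2 : ω (x v) (y v) = ω v (x (y v)) := by
      rw [halt, hskew y hy v (x v), ← h1, neg_neg]
    have k3 : (2 : K) * ω (x v) (y v) = 0 := by linear_combination k1 + k2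
    exact (mul_eq_zero.mp k3).resolve_left two_ne_zero
  apply hf0
  refine nondeg_ext hω hD hχ hf fun η w h3 hw => ?_
  have h4 : η = μ⁻¹ * c := by
    have h5 : μ * c * (η - μ⁻¹ * c) = 0 := by
      have h6 : μ * μ⁻¹ = 1 := mul_inv_cancel₀ hμ0
      linear_combination h3 - hcc - c * c * h6
    exact sub_eq_zero.mp ((mul_eq_zero.mp h5).resolve_left (mul_ne_zero hμ0 hc0))
  rw [h4] at hw
  obtain ⟨a, rfl⟩ := line_span (hk _ (fun h => hμ (by
    have h8 : μ⁻¹ = 1 := mul_right_cancel₀ hc0 (by rw [h, one_mul])
    exact inv_eq_one.mp h8))) he0 he hw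
  rw [map_smul, h2, smul_zero]

/-- More than half of the eigenvalues are equal, the others are simple. -/
theorem mr_S (ω : LinearMap.BilinForm K V) (hω : ω.Nondegenerate)
    (halt : ∀ v w, ω v w = - ω w v) (L : LieSubalgebra K (Module.End K V))
    (hskew : ∀ x ∈ L, ∀ v w, ω (x v) w = - ω v (x w))
    (hirr : ∀ W : Submodule K V, (∀ x ∈ L, ∀ v ∈ W, x v ∈ W) → W = ⊥ ∨ W = ⊤)
    {s : V ≃ₗ[K] V} (hs : ∀ x ∈ L, s.conj x ∈ L) (hD : Diag (s : Module.End K V)) {c : K} {r : ℕ}
    (hc : finrank K (Module.End.eigenspace (s : Module.End K V) c) + r = finrank K V)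
    (hk : ∀ ζ : K, ζ ≠ c → finrank K (Module.End.eigenspace (s : Module.End K V) ζ) ≤ 1)
    (hr0 : 0 < r) (hr : 2 * r < finrank K V) :
    ∃ y ∈ L, y ≠ 0 ∧ y * y = 0 ∧ finrank K (LinearMap.range y) ≤ 2 := by
  classical
  have hnt : Nontrivial V := Module.nontrivial_of_finrank_pos (R := K) (by omega)
  have hself : ∀ v, ω v v = 0 := by
    intro v
    have h := halt v v
    have h2 : (2 : K) * ω v v = 0 := by linear_combination h
    exact (mul_eq_zero.mp h2).resolve_left two_ne_zero
  have htr : ∀ x ∈ L, LinearMap.trace K V x = 0 := fun x hx =>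
    Pool.Agent.OT.tr_skew ω hω (x := x) (hskew x hx)
  obtain ⟨χ, hχ⟩ := Pool.Agent.LM2.simil ω hω L.toSubmodule hskew hirr (s : Module.End K V)
    (s.symm : Module.End K V) (by ext t; exact s.symm_apply_apply t) (fun x hx => by
      have h1 := hs x hx
      have h2 : s.conj x = (s : Module.End K V) * x * (s.symm : Module.End K V) := rfl
      rw [← h2]
      exact h1)
  have hχ' : ∀ x y, ω (s x) (s y) = χ * ω x y := hχ
  -- the eigenspace is not isotropic
  have hniso : ∃ x y, s x = c • x ∧ s y = c • y ∧ ω x y ≠ 0 := by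
    by_contra hne
    push Not at hne
    have hle : Module.End.eigenspace (s : Module.End K V) c ≤
        ω.orthogonal (Module.End.eigenspace (s : Module.End K V) c) := by
      intro y hy
      rw [LinearMap.BilinForm.mem_orthogonal_iff]
      intro x hx
      exact hne x y (mem_E.mp hx) (mem_E.mp hy)
    have h1 := LinearMap.BilinForm.finrank_orthogonal hω
      (Module.End.eigenspace (s : Module.End K V) c)
    have h2 := Submodule.finrank_mono hle
    omega
  have hc0 : c ≠ 0 := by
    rintro rfl
    obtain ⟨x, y, hx, hy, hxy⟩ := hniso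
    apply hxy
    rw [zero_smul, s.map_eq_zero_iff] at hx
    rw [hx, map_zero, LinearMap.zero_apply]
  have hcc : c * c = χ := by
    obtain ⟨x, y, hx, hy, hxy⟩ := hniso
    by_contra hne
    exact hxy (orth hχ' hx hy hne)
  have hcn : -c ≠ c := by
    intro h
    have h2 : (2 : K) * c = 0 := by linear_combination -h
    exact hc0 ((mul_eq_zero.mp h2).resolve_left two_ne_zero)
  obtain ⟨b, x, hb⟩ := exists_eigenbasis hD
  have hb' : ∀ i, s (b i) = x i • b i := hb
  have hcount := eig_count b x hb
  obtain ⟨I, hI⟩ : ∃ I : Finset (Fin (finrank K V)), I = Finset.univ.filter fun i => ¬ x i = c :=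
    ⟨_, rfl⟩
  have memI : ∀ i, i ∈ I ↔ x i ≠ c := fun i => by rw [hI]; simp
  have hIr : I.card = r := by
    have h3 := Finset.card_filter_add_card_filter_not (s := Finset.univ) (fun i => x i = c)
    rw [← hcount c, Finset.card_univ, Fintype.card_fin, ← hI] at h3
    omega
  obtain ⟨i₀, hi₀⟩ : I.Nonempty := Finset.card_pos.mp (by omega)
  have hi₀' := (memI i₀).mp hi₀
  by_cases hT : ∃ t ∈ L, Hm s 1 t ∧ t ≠ 0 ∧ ∀ (ζ : K) (e : V), ζ ≠ c → s e = ζ • e → t e = 0
  · -- elements of rank two
    obtain ⟨t, ht, ht1, ht0, htk⟩ := hT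
    have h1 : ∃ μ : K, μ ≠ 1 ∧ ∃ x ∈ L, Hm s μ x ∧ t * x ≠ x * t := by
      by_contra hne
      push Not at hne
      exact ht0 (p0 L hirr htr hD hs (b.ne_zero i₀) (hb' i₀) (hk _ hi₀') ht ht1
        fun μ hμ x hx hx' => hne μ hμ x hx hx')
    obtain ⟨μ, hμ, z, hz, hz', htz⟩ := h1
    have hz0 : z ≠ 0 := by
      rintro rfl
      exact htz (by rw [mul_zero, zero_mul])
    have hμ0 := hz'.ne hz0
    have hy : Hm s μ (t * z - z * t) := by
      have h2 := ht1.brk hz'
      rwa [one_mul] at h2
    have hkill : ∀ (ζ : K) (e : V), ζ ≠ c → μ * ζ ≠ c → s e = ζ • e → (t * z - z * t) e = 0 :=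
      fun ζ e h2 h3 h4 => brk_kill htk hz' h2 h3 h4
    have hyL : t * z - z * t ∈ L := L.lie_mem ht hz
    exact ⟨t * z - z * t, hyL, sub_ne_zero.mpr htz,
      kill_sq hω hself hD hχ' hc0 hcc hk hcn hμ0 hμ hy (hskew _ hyL) hkill,
      kill_rank hD hc0 hk hμ0 hμ hy hkill⟩
  · exfalso
    push Not at hT
    -- the dual eigenvalues
    have hσ : ∀ i, ∃ j, ω (b i) (b j) ≠ 0 := by
      intro i
      by_contra hne
      push Not at hne
      apply b.ne_zero i
      refine nondeg_ext hω hD hχ' (hb' i) fun η w _ hw => ?_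
      have h1 : ω (b i) = 0 := by
        apply b.ext
        intro j
        rw [hne j, LinearMap.zero_apply]
      rw [h1, LinearMap.zero_apply]
    choose σ hσ using hσ
    have hxσ : ∀ i, x i * x (σ i) = χ := by
      intro i
      by_contra hne
      exact hσ i (orth hχ' (hb' i) (hb' (σ i)) hne)
    have hσI : ∀ i ∈ I, σ i ∈ I := by
      intro i hi
      rw [memI] at hi ⊢
      intro h
      apply hi
      have h1 := hxσ i
      rw [h, ← hcc] at h1
      exact mul_right_cancel₀ hc0 h1
    have huniq : ∀ i j, x i ≠ c → x j = x i → j = i := by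
      intro i j hi hj
      by_contra hne
      have h1 := hk _ hi
      rw [hcount] at h1
      have h2 : ({i, j} : Finset _) ⊆ (Finset.univ.filter fun l => x l = x i) := by
        intro l hl
        rw [Finset.mem_insert, Finset.mem_singleton] at hl
        rw [Finset.mem_filter]
        refine ⟨Finset.mem_univ _, ?_⟩
        rcases hl with rfl | rfl
        · rfl
        · exact hj
      have h3 := Finset.card_le_card h2
      rw [Finset.card_pair (Ne.symm hne)] at h3
      omega
    have hx0 : ∀ i, x i ≠ 0 := by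
      intro i h
      have h1 := hb' i
      rw [h, zero_smul] at h1
      exact b.ne_zero i (s.map_eq_zero_iff.mp h1)
    have hσσ : ∀ i ∈ I, σ (σ i) = i := by
      intro i hi
      refine huniq i _ ((memI i).mp hi) ?_
      have h1 := hxσ i
      have h2 := hxσ (σ i)
      rw [← h1, mul_comm (x i)] at h2
      exact mul_left_cancel₀ (hx0 (σ i)) h2
    have hσne : ∀ i, σ i ≠ i := by
      intro i h
      have h1 := hσ i
      rw [h, hself] at h1
      exact h1 rfl
    -- half of the other eigenvectors
    obtain ⟨P, hP⟩ : ∃ P : Finset (Fin (finrank K V)), P = I.filter fun i => i < σ i := ⟨_, rfl⟩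
    have hPr : 2 * P.card = r := by
      have h1 := Finset.card_filter_add_card_filter_not (s := I) (fun i => i < σ i)
      have h2 : (I.filter fun i => i < σ i).card = (I.filter fun i => ¬ i < σ i).card := by
        refine Finset.card_bij (fun i _ => σ i) ?_ ?_ ?_
        · intro i hi
          rw [Finset.mem_filter] at hi ⊢
          refine ⟨hσI i hi.1, ?_⟩
          rw [hσσ i hi.1]
          exact not_lt.mpr hi.2.le
        · intro i hi j hj hij
          rw [Finset.mem_filter] at hi hj
          rw [← hσσ i hi.1, hij, hσσ j hj.1]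
        · intro j hj
          rw [Finset.mem_filter] at hj
          refine ⟨σ j, ?_, hσσ j hj.1⟩
          rw [Finset.mem_filter]
          refine ⟨hσI j hj.1, ?_⟩
          rw [hσσ j hj.1]
          exact lt_of_le_of_ne (not_lt.mp hj.2) (hσne j)
      rw [hP]
      omega
    have hone : finrank K (One L s) ≤ P.card := by
      refine one_le L hk b x hb' P (fun i hi => ?_) fun t ht ht1 htP => ?_
      · rw [hP, Finset.mem_filter] at hi
        exact (memI i).mp hi.1
      · by_contra ht0
        obtain ⟨ζ, e, hζ, he, hte⟩ := hT t ht ht1 ht0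
        apply hte
        -- e is a multiple of a basis vector
        have he0 : e ≠ 0 := by
          rintro rfl
          exact hte (map_zero t)
        have h1 : ∃ i, x i = ζ := by
          by_contra hne
          push Not at hne
          have h2 : finrank K (Module.End.eigenspace (s : Module.End K V) ζ) = 0 := by
            rw [hcount, Finset.filter_false_of_mem (fun i _ => hne i), Finset.card_empty]
          rw [Submodule.finrank_eq_zero] at h2
          have h3 : e ∈ Module.End.eigenspace (s : Module.End K V) ζ := mem_E.mpr he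
          rw [h2, Submodule.mem_bot] at h3
          exact he0 h3
        obtain ⟨i, rfl⟩ := h1
        obtain ⟨a, rfl⟩ := line_span (hk _ hζ) (b.ne_zero i) (hb' i) he
        rw [map_smul]
        have hiI : i ∈ I := (memI i).mpr hζ
        by_cases h2 : i < σ i
        · rw [htP i (by rw [hP, Finset.mem_filter]; exact ⟨hiI, h2⟩), smul_zero]
        · -- use the dual vector
          have h3 : σ i ∈ P := by
            rw [hP, Finset.mem_filter]
            refine ⟨hσI i hiI, ?_⟩
            rw [hσσ i hiI]
            exact lt_of_le_of_ne (not_lt.mp h2) (hσne i)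
          have h4 := htP (σ i) h3
          have h5 : s (t (b i)) = x i • t (b i) := by
            have h6 := ht1.eig (hb' i)
            rwa [one_mul] at h6
          obtain ⟨a', ha'⟩ := line_span (hk _ hζ) (b.ne_zero i) (hb' i) h5
          have h6 := hskew t ht (b i) (b (σ i))
          rw [h4, map_zero, neg_zero, ha', map_smul, LinearMap.smul_apply, smul_eq_mul] at h6
          have h7 := (mul_eq_zero.mp h6).resolve_right (hσ i)
          rw [ha', h7, zero_smul, smul_zero]
    obtain ⟨N, hN, hNd⟩ := one_ker L hirr htr hD hs hc0 hk hi₀' (b.ne_zero i₀) (hb' i₀)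
    have hN0 : N ≠ ⊥ := by
      intro h
      rw [h, finrank_bot] at hNd
      omega
    obtain ⟨v, hv, hv0⟩ := Submodule.exists_mem_ne_zero_of_ne_bot hN0
    have hL : L ≠ ⊥ := by
      intro h
      obtain ⟨e, he⟩ := exists_ne (0 : V)
      rcases hirr (K ∙ e) (fun x hx v hv => by
        rw [h, LieSubalgebra.mem_bot] at hx
        rw [hx, LinearMap.zero_apply]
        exact Submodule.zero_mem _) with h1 | h1
      · exact he (Submodule.span_singleton_eq_bot.mp h1)
      · have h2 := finrank_span_singleton (K := K) he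
        rw [h1, finrank_top] at h2
        omega
    obtain ⟨n, β, β', μ, κ, hκ, hβ, hcas⟩ := cas L hirr htr hD hs hL
    have h1 := hcas v
    rw [Finset.sum_eq_zero (fun i _ => term_zero hω halt L hskew hD hχ' hc0 hcc hk (hN v hv).1
      (hN v hv).2 (hβ i).2.2.1 (hβ i).1 (hβ i).2.1 (hβ i).2.2.2.1 (hβ i).2.2.2.2)] at h1
    exact hv0 ((smul_eq_zero.mp h1.symm).resolve_left hκ)

end sym

end Pool.Agent.MR
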