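import Pool.Agent.Lib_helper48.MR.Gr

/-! Homogeneous elements of rank at most two. -/

set_option autoImplicit false
set_option linter.unusedSectionVars false

namespace Pool.Agent.MR

open Module Pool.Agent.RM

variable {K : Type*} [Field K] {V : Type*} [AddCommGroup V] [Module K V] [FiniteDimensional K V]

theorem mem_E {s : V ≃ₗ[K] V} {ζ : K} {v : V} :
    v ∈ Module.End.eigenspace (s : Module.End K V) ζ ↔ s v = ζ • v :=
  Module.End.mem_eigenspace_iff

theorem range_le {s : V ≃ₗ[K] V} (hD : Diag (s : Module.End K V)) {y : Module.End K V}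
    {W : Submodule K V} (h : ∀ (ζ : K) (v : V), s v = ζ • v → y v ∈ W) :
    LinearMap.range y ≤ W := by
  rw [LinearMap.range_eq_map, Submodule.map_le_iff_le_comap, ← (hD : _ = ⊤)]
  exact iSup_le fun ζ => fun v hv => h ζ v (mem_E.mp hv)

/-- The elements of a line are multiples of a nonzero element. -/
theorem line_span {s : V ≃ₗ[K] V} {ζ : K}
    (h : finrank K (Module.End.eigenspace (s : Module.End K V) ζ) ≤ 1) {e w : V} (he : e ≠ 0)
    (hse : s e = ζ • e) (hw : s w = ζ • w) : ∃ a : K, w = a • e := by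
  let e' : Module.End.eigenspace (s : Module.End K V) ζ := ⟨e, mem_E.mpr hse⟩
  have he' : e' ≠ 0 := fun h => he (congrArg Subtype.val h)
  have hnt : Nontrivial (Module.End.eigenspace (s : Module.End K V) ζ) := ⟨⟨e', 0, he'⟩⟩
  obtain ⟨a, ha⟩ := exists_smul_eq_of_finrank_eq_one (le_antisymm h Module.finrank_pos) he'
    ⟨w, mem_E.mpr hw⟩
  exact ⟨a, (congrArg Subtype.val ha).symm⟩

theorem brk_kill {s : V ≃ₗ[K] V} {c : K} {t x : Module.End K V}
    (ht : ∀ (ζ : K) (e : V), ζ ≠ c → s e = ζ • e → t e = 0) {μ : K} (hx : Hm s μ x) {ζ : K}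
    {e : V} (hζ : ζ ≠ c) (hμζ : μ * ζ ≠ c) (he : s e = ζ • e) : (t * x - x * t) e = 0 := by
  rw [LinearMap.sub_apply, Module.End.mul_apply, Module.End.mul_apply, ht ζ e hζ he, map_zero,
    ht _ _ hμζ (hx.eig he), sub_zero]

theorem kill_rank {s : V ≃ₗ[K] V} (hD : Diag (s : Module.End K V)) {c : K} (hc0 : c ≠ 0)
    (hk : ∀ ζ : K, ζ ≠ c → finrank K (Module.End.eigenspace (s : Module.End K V) ζ) ≤ 1)
    {y : Module.End K V} {μ : K} (hμ0 : μ ≠ 0) (hμ : μ ≠ 1) (hy : Hm s μ y)
    (hkill : ∀ (ζ : K) (e : V), ζ ≠ c → μ * ζ ≠ c → s e = ζ • e → y e = 0) :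
    finrank K (LinearMap.range y) ≤ 2 := by
  have h1 : LinearMap.range y ≤ Module.End.eigenspace (s : Module.End K V) (μ * c) ⊔
      (Module.End.eigenspace (s : Module.End K V) (c / μ)).map y := by
    refine range_le hD fun ζ v hv => ?_
    by_cases hζ : ζ = c
    · subst hζ
      exact Submodule.mem_sup_left (mem_E.mpr (hy.eig hv))
    · by_cases h2 : μ * ζ = c
      · refine Submodule.mem_sup_right ⟨v, mem_E.mpr ?_, rfl⟩
        have h3 : c / μ = ζ := by rw [← h2, mul_div_cancel_left₀ _ hμ0]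
        rw [h3]
        exact hv
      · rw [hkill ζ v hζ h2 hv]
        exact Submodule.zero_mem _
  have h2 := Submodule.finrank_mono h1
  have h3 := Submodule.finrank_add_le_finrank_add_finrank
    (Module.End.eigenspace (s : Module.End K V) (μ * c))
    ((Module.End.eigenspace (s : Module.End K V) (c / μ)).map y)
  have h4 := hk (μ * c) (fun h => hμ (mul_right_cancel₀ hc0 (by rw [h, one_mul])))
  have h5 := hk (c / μ) (fun h => hμ (by
    rw [div_eq_iff hμ0] at h
    exact mul_left_cancel₀ hc0 (by rw [← h, mul_one])))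
  have h6 := Submodule.finrank_map_le y (Module.End.eigenspace (s : Module.End K V) (c / μ))
  omega

section sym

variable {ω : LinearMap.BilinForm K V} {s : V ≃ₗ[K] V} {χ : K}

/-- Eigenspaces are orthogonal unless the product of the eigenvalues is the multiplier. -/
theorem orth (hχ : ∀ v w, ω (s v) (s w) = χ * ω v w) {ζ η : K} {u w : V} (hu : s u = ζ • u)
    (hw : s w = η • w) (h : ζ * η ≠ χ) : ω u w = 0 := by
  have h1 := hχ u w
  rw [hu, hw, map_smul, map_smul, LinearMap.smul_apply, smul_eq_mul, smul_eq_mul] at h1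
  have h2 : (ζ * η - χ) * ω u w = 0 := by linear_combination h1
  exact (mul_eq_zero.mp h2).resolve_left (sub_ne_zero.mpr h)

theorem nondeg_ext (hω : ω.Nondegenerate) (hD : Diag (s : Module.End K V))
    (hχ : ∀ v w, ω (s v) (s w) = χ * ω v w) {ρ : K} {f : V} (hf : s f = ρ • f)
    (h : ∀ (η : K) (w : V), ρ * η = χ → s w = η • w → ω f w = 0) : f = 0 := by
  have h1 : ω f = 0 := by
    refine ext_eig hD fun η w hw => ?_
    rw [LinearMap.zero_apply]
    by_cases h2 : ρ * η = χ
    · exact h η w h2 hw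
    · exact orth hχ hf hw h2
  exact hω.1 f fun w => by rw [h1, LinearMap.zero_apply]

/-- There is no eigenvalue -c. -/
theorem neg_line (hω : ω.Nondegenerate) (hself : ∀ v, ω v v = 0) (hD : Diag (s : Module.End K V))
    (hχ : ∀ v w, ω (s v) (s w) = χ * ω v w) {c : K} (hc0 : c ≠ 0) (hcc : c * c = χ)
    (h : finrank K (Module.End.eigenspace (s : Module.End K V) (-c)) ≤ 1) {f : V}
    (hf : s f = (-c) • f) : f = 0 := by
  by_contra hne
  apply hne
  refine nondeg_ext hω hD hχ hf fun η w h1 hw => ?_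
  have h2 : η = -c := by
    have h3 : c * (η + c) = 0 := by linear_combination -h1 + hcc
    exact eq_neg_of_add_eq_zero_left ((mul_eq_zero.mp h3).resolve_left hc0)
  rw [h2] at hw
  obtain ⟨a, rfl⟩ := line_span h hne hf hw
  rw [map_smul, hself, smul_zero]

theorem kill_sq (hω : ω.Nondegenerate) (hself : ∀ v, ω v v = 0) (hD : Diag (s : Module.End K V))
    (hχ : ∀ v w, ω (s v) (s w) = χ * ω v w) {c : K} (hc0 : c ≠ 0) (hcc : c * c = χ)
    (hk : ∀ ζ : K, ζ ≠ c → finrank K (Module.End.eigenspace (s : Module.End K V) ζ) ≤ 1)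
    (hcn : -c ≠ c)
    {y : Module.End K V} {μ : K} (hμ0 : μ ≠ 0) (hμ : μ ≠ 1) (hy : Hm s μ y)
    (hskew : ∀ v w, ω (y v) w = - ω v (y w))
    (hkill : ∀ (ζ : K) (e : V), ζ ≠ c → μ * ζ ≠ c → s e = ζ • e → y e = 0) : y * y = 0 := by
  refine ext_eig hD fun ζ v hv => ?_
  rw [Module.End.mul_apply, LinearMap.zero_apply]
  have hμc : μ * c ≠ c := fun h => hμ (mul_right_cancel₀ hc0 (by rw [h, one_mul]))
  by_cases hζ : ζ = c
  · subst hζ
    have h1 := hy.eig hv
    by_cases h2 : μ * (μ * ζ) = ζ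
    · have h3 : (μ + 1) * (μ - 1) * ζ = 0 := by linear_combination h2
      have h4 : μ = -1 := by
        have h5 := (mul_eq_zero.mp h3).resolve_right hc0
        exact eq_neg_of_add_eq_zero_left ((mul_eq_zero.mp h5).resolve_right
          (sub_ne_zero.mpr hμ))
      rw [h4, neg_one_mul] at h1
      rw [neg_line hω hself hD hχ hc0 hcc (hk _ hcn) h1, map_zero]
    · exact hkill _ _ hμc h2 h1
  · by_cases h2 : μ * ζ = c
    · by_cases hv0 : v = 0
      · rw [hv0, map_zero, map_zero]
      · have h1 := hy.eig hv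
        rw [h2] at h1
        refine nondeg_ext hω hD hχ (hy.eig h1) fun η w h3 hw => ?_
        have h4 : η = ζ := by
          have h5 : μ * c * (η - ζ) = 0 := by linear_combination h3 - hcc - c * h2
          exact sub_eq_zero.mp ((mul_eq_zero.mp h5).resolve_left (mul_ne_zero hμ0 hc0))
        rw [h4] at hw
        obtain ⟨a, rfl⟩ := line_span (hk ζ hζ) hv0 hv hw
        rw [map_smul, hskew, hself, neg_zero, smul_zero]
    · rw [hkill ζ v hζ h2 hv, map_zero]

end sym

/-- The trace of an element of degree different from 1 is 0. -/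
theorem tr_zero {s : V ≃ₗ[K] V} {μ : K} {x : Module.End K V} (h : Hm s μ x) (hμ : μ ≠ 1) :
    LinearMap.trace K V x = 0 := by
  have h1 := congrArg (LinearMap.trace K V) (hm_iff.mp h)
  rw [LinearMap.trace_conj', map_smul, smul_eq_mul] at h1
  have h2 : (μ - 1) * LinearMap.trace K V x = 0 := by linear_combination -h1
  exact (mul_eq_zero.mp h2).resolve_left (sub_ne_zero.mpr hμ)

end Pool.Agent.MR
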