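import Pool.Agent.Lib_helper48.MR.A

/-! The part of degree one is generated by brackets of elements of other degrees; the common kernel
of the part of degree one. -/

set_option autoImplicit false
set_option linter.unusedSectionVars false

namespace Pool.Agent.MR

open Module Pool.Agent.RM

attribute [local instance 100] LieRing.ofAssociativeRing

section dim

variable {K : Type*} [Field K] {V : Type*} [AddCommGroup V] [Module K V] [FiniteDimensional K V]

theorem inf_ker (W : Submodule K V) (z : Module.End K V) :
    finrank K W = finrank K (W.map z) + finrank K (W ⊓ LinearMap.ker z : Submodule K V) := by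
  have h1 := LinearMap.finrank_range_add_finrank_ker (z.domRestrict W)
  have h2 : LinearMap.range (z.domRestrict W) = W.map z := by
    ext v
    constructor
    · rintro ⟨w, rfl⟩
      exact ⟨w, w.2, rfl⟩
    · rintro ⟨w, hw, rfl⟩
      exact ⟨⟨w, hw⟩, rfl⟩
  have h3 : (LinearMap.ker (z.domRestrict W)).map W.subtype = W ⊓ LinearMap.ker z := by
    ext v
    constructor
    · rintro ⟨w, hw, rfl⟩
      exact ⟨w.2, hw⟩
    · rintro ⟨hv, hz⟩
      exact ⟨⟨v, hv⟩, hz, rfl⟩
  have h4 : finrank K (LinearMap.ker (z.domRestrict W)) =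
      finrank K (W ⊓ LinearMap.ker z : Submodule K V) := by
    rw [← h3]
    exact (Submodule.finrank_map_subtype_eq W _).symm
  rw [← h1, h2, h4]

/-- The common kernel of operators with small images. -/
theorem common_ker (E : Submodule K V) (k : ℕ) (F : Finset (Module.End K V))
    (h : ∀ z ∈ F, finrank K (E.map z) ≤ k) :
    ∃ N : Submodule K V, N ≤ E ∧ (∀ v ∈ N, ∀ z ∈ F, z v = 0) ∧
      finrank K E ≤ finrank K N + k * F.card := by
  classical
  induction F using Finset.induction_on with
  | empty => exact ⟨E, le_refl _, fun v _ z hz => absurd hz (Finset.notMem_empty z), by simp⟩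
  | insert z F hz ih =>
    obtain ⟨N, h1, h2, h3⟩ := ih fun w hw => h w (Finset.mem_insert_of_mem hw)
    refine ⟨N ⊓ LinearMap.ker z, inf_le_left.trans h1, ?_, ?_⟩
    · rintro v ⟨hv, hvz⟩ w hw
      rcases Finset.mem_insert.mp hw with rfl | hw
      · exact hvz
      · exact h2 v hv w hw
    · have h4 := inf_ker N z
      have h5 := Submodule.finrank_mono (Submodule.map_mono (f := z) h1)
      have h6 := h z (Finset.mem_insert_self z F)
      rw [Finset.card_insert_of_notMem hz, Nat.mul_succ]
      omega

end dim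

variable {K : Type*} [Field K] [CharZero K] [IsAlgClosed K]
variable {V : Type*} [AddCommGroup V] [Module K V] [FiniteDimensional K V]

/-- The part of degree one. -/
def One (L : LieSubalgebra K (Module.End K V)) (s : V ≃ₗ[K] V) : Submodule K (Module.End K V) where
  carrier := {t | t ∈ L ∧ Hm s 1 t}
  add_mem' := fun h k => ⟨L.add_mem h.1 k.1, h.2.add k.2⟩
  zero_mem' := ⟨L.zero_mem, Hm.zero⟩
  smul_mem' := fun a _ h => ⟨L.smul_mem a h.1, h.2.smul a⟩

theorem mem_One {L : LieSubalgebra K (Module.End K V)} {s : V ≃ₗ[K] V} {t : Module.End K V} :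
    t ∈ One L s ↔ t ∈ L ∧ Hm s 1 t := Iff.rfl

/-- The brackets of degree one. -/
def Br (L : LieSubalgebra K (Module.End K V)) (s : V ≃ₗ[K] V) : Set (Module.End K V) :=
  {z | ∃ μ : K, μ ≠ 0 ∧ μ ≠ 1 ∧ ∃ x ∈ L, ∃ y ∈ L, Hm s μ x ∧ Hm s μ⁻¹ y ∧ z = x * y - y * x}

theorem Br_sub (L : LieSubalgebra K (Module.End K V)) (s : V ≃ₗ[K] V) :
    Br L s ⊆ One L s := by
  rintro z ⟨μ, hμ, -, x, hx, y, hy, hx', hy', rfl⟩
  refine ⟨L.lie_mem hx hy, ?_⟩
  have h1 := hx'.brk hy'
  rwa [mul_inv_cancel₀ hμ] at h1

/-- The part of degree one is spanned by brackets. -/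
theorem one_span [Nontrivial V] (L : LieSubalgebra K (Module.End K V))
    (hirr : ∀ W : Submodule K V, (∀ x ∈ L, ∀ v ∈ W, x v ∈ W) → W = ⊥ ∨ W = ⊤)
    (htr : ∀ x ∈ L, LinearMap.trace K V x = 0) {s : V ≃ₗ[K] V} (hD : Diag (s : Module.End K V))
    (hs : ∀ x ∈ L, s.conj x ∈ L) {ζ : K} {e : V} (he : e ≠ 0) (hse : s e = ζ • e)
    (hline : finrank K (Module.End.eigenspace (s : Module.End K V) ζ) ≤ 1) :
    Submodule.span K (Br L s) = One L s := by
  have hle : Submodule.span K (Br L s) ≤ One L s := Submodule.span_le.mpr (Br_sub L s)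
  by_contra hne
  have hlt : Submodule.span K (Br L s) < One L s := lt_of_le_of_ne hle hne
  let B : LinearMap.BilinForm K (One L s) := LinearMap.mk₂ K
    (fun x y => LinearMap.trace K V ((x : Module.End K V) * (y : Module.End K V)))
    (fun a b c => by
      show LinearMap.trace K V (((a : Module.End K V) + b) * c) = _
      rw [add_mul, map_add])
    (fun r a b => by
      show LinearMap.trace K V ((r • (a : Module.End K V)) * b) = _
      rw [smul_mul_assoc, map_smul])
    (fun a b c => by
      show LinearMap.trace K V ((a : Module.End K V) * ((b : Module.End K V) + c)) = _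
      rw [mul_add, map_add])
    (fun r a b => by
      show LinearMap.trace K V ((a : Module.End K V) * (r • (b : Module.End K V))) = _
      rw [mul_smul_comm, map_smul])
  have hB : ∀ x y, B x y = LinearMap.trace K V ((x : Module.End K V) * (y : Module.End K V)) :=
    fun x y => rfl
  have hBs : ∀ x y, B x y = B y x := fun x y => by rw [hB, hB, LinearMap.trace_mul_comm]
  have hBn : ∀ x : One L s, (∀ y, B x y = 0) → x = 0 := by
    intro x h
    apply Subtype.ext
    refine tr_nondeg L hirr htr _ x.2.1 fun y hy => ?_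
    let W : Submodule K (Module.End K V) := LinearMap.ker
      ((LinearMap.trace K V).comp (LinearMap.mulLeft K (x : Module.End K V)))
    have hLW : L.toSubmodule ≤ W := by
      refine hom_ind hD hs fun μ y hy hy' => ?_
      show LinearMap.trace K V ((x : Module.End K V) * y) = 0
      by_cases hμ : μ = 1
      · subst hμ
        exact h ⟨y, hy, hy'⟩
      · refine tr_zero (x.2.2.mul hy') ?_
        rwa [one_mul]
    exact hLW hy
  have hBnd : B.Nondegenerate := ⟨hBn, fun y h => hBn y fun x => by rw [hBs]; exact h x⟩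
  -- an element orthogonal to the brackets
  let Z : Submodule K (One L s) := (Submodule.span K (Br L s)).comap (One L s).subtype
  have hZ : finrank K Z < finrank K (One L s) := by
    have h1 : finrank K Z = finrank K (Submodule.span K (Br L s)) := by
      have h2 : Z.map (One L s).subtype = Submodule.span K (Br L s) := by
        rw [Submodule.map_comap_subtype, inf_eq_right]
        exact hle
      rw [← h2]
      exact (Submodule.finrank_map_subtype_eq _ _).symm
    rw [h1]
    exact Submodule.finrank_lt_finrank_of_lt hlt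
  have horth := LinearMap.BilinForm.finrank_orthogonal hBnd Z
  have hne0 : B.orthogonal Z ≠ ⊥ := by
    intro h
    rw [h, finrank_bot] at horth
    omega
  obtain ⟨t, ht, ht0⟩ := Submodule.exists_mem_ne_zero_of_ne_bot hne0
  rw [LinearMap.BilinForm.mem_orthogonal_iff] at ht
  apply ht0
  apply Subtype.ext
  refine p0 L hirr htr hD hs he hse hline t.2.1 t.2.2 fun μ hμ x hx hx' => ?_
  rw [← sub_eq_zero]
  by_cases hx0 : x = 0
  · rw [hx0, mul_zero, zero_mul, sub_zero]
  have hμ0 := hx'.ne hx0
  have htx : Hm s μ ((t : Module.End K V) * x - x * t) := by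
    have h1 := t.2.2.brk hx'
    rwa [one_mul] at h1
  refine tr_nondeg L hirr htr _ (L.lie_mem t.2.1 hx) fun y hy => ?_
  let W : Submodule K (Module.End K V) := LinearMap.ker
    ((LinearMap.trace K V).comp (LinearMap.mulLeft K ((t : Module.End K V) * x - x * t)))
  have hLW : L.toSubmodule ≤ W := by
    refine hom_ind hD hs fun ν y hy hy' => ?_
    show LinearMap.trace K V (((t : Module.End K V) * x - x * t) * y) = 0
    by_cases hν : μ * ν = 1
    · have h1 : ν = μ⁻¹ := eq_inv_of_mul_eq_one_right hν
      rw [h1] at hy'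
      have h2 : x * y - y * x ∈ Br L s := ⟨μ, hμ0, hμ, x, hx, y, hy, hx', hy', rfl⟩
      have h3 := ht ⟨x * y - y * x, Br_sub L s h2⟩ (Submodule.subset_span h2)
      have h4 : LinearMap.trace K V ((x * y - y * x) * (t : Module.End K V)) = 0 := h3
      have h5 : LinearMap.trace K V (((t : Module.End K V) * x - x * t) * y) =
          LinearMap.trace K V ((x * y - y * x) * (t : Module.End K V)) := by
        rw [sub_mul, sub_mul, map_sub, map_sub]
        congr 1
        · rw [mul_assoc, LinearMap.trace_mul_comm]
        · rw [mul_assoc, LinearMap.trace_mul_comm, mul_assoc, LinearMap.trace_mul_comm]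
      rw [h5, h4]
    · exact tr_zero (htx.mul hy') hν
  exact hLW hy

/-- The common kernel of the part of degree one. -/
theorem one_ker [Nontrivial V] (L : LieSubalgebra K (Module.End K V))
    (hirr : ∀ W : Submodule K V, (∀ x ∈ L, ∀ v ∈ W, x v ∈ W) → W = ⊥ ∨ W = ⊤)
    (htr : ∀ x ∈ L, LinearMap.trace K V x = 0) {s : V ≃ₗ[K] V} (hD : Diag (s : Module.End K V))
    (hs : ∀ x ∈ L, s.conj x ∈ L) {c : K} (hc0 : c ≠ 0)
    (hk : ∀ ζ : K, ζ ≠ c → finrank K (Module.End.eigenspace (s : Module.End K V) ζ) ≤ 1)
    {ζ : K} {e : V} (hζ : ζ ≠ c) (he : e ≠ 0) (hse : s e = ζ • e) :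
    ∃ N : Submodule K V, (∀ v ∈ N, s v = c • v ∧ ∀ t ∈ L, Hm s 1 t → t v = 0) ∧
      finrank K (Module.End.eigenspace (s : Module.End K V) c) ≤
        finrank K N + 2 * finrank K (One L s) := by
  classical
  have hspan := one_span L hirr htr hD hs he hse (hk ζ hζ)
  obtain ⟨b, hbS, hb, hli⟩ := exists_linearIndependent K (Br L s)
  have hfin : b.Finite := hli.setFinite
  have hcard : hfin.toFinset.card = finrank K (One L s) := by
    rw [← hspan, ← hb]
    have hft : Fintype b := hfin.fintype
    rw [finrank_span_set_eq_card hli]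
    congr 1
    ext v
    simp
  obtain ⟨N, h1, h2, h3⟩ := common_ker (Module.End.eigenspace (s : Module.End K V) c) 2
    hfin.toFinset (by
      intro z hz
      obtain ⟨μ, hμ0, hμ, x, hx, y, hy, hx', hy', rfl⟩ := hbS (hfin.mem_toFinset.mp hz)
      have k1 : (Module.End.eigenspace (s : Module.End K V) c).map (x * y - y * x) ≤
          (Module.End.eigenspace (s : Module.End K V) (μ⁻¹ * c)).map x ⊔
            (Module.End.eigenspace (s : Module.End K V) (μ * c)).map y := by
        rintro _ ⟨v, hv, rfl⟩
        have hv' := mem_E.mp hv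
        rw [LinearMap.sub_apply, Module.End.mul_apply, Module.End.mul_apply]
        exact Submodule.sub_mem _
          (Submodule.mem_sup_left ⟨y v, mem_E.mpr (hy'.eig hv'), rfl⟩)
          (Submodule.mem_sup_right ⟨x v, mem_E.mpr (hx'.eig hv'), rfl⟩)
      have k2 := Submodule.finrank_mono k1
      have k3 := Submodule.finrank_add_le_finrank_add_finrank
        ((Module.End.eigenspace (s : Module.End K V) (μ⁻¹ * c)).map x)
        ((Module.End.eigenspace (s : Module.End K V) (μ * c)).map y)
      have k4 := Submodule.finrank_map_le x (Module.End.eigenspace (s : Module.End K V) (μ⁻¹ * c))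
      have k5 := Submodule.finrank_map_le y (Module.End.eigenspace (s : Module.End K V) (μ * c))
      have k6 := hk (μ * c) (fun h => hμ (mul_right_cancel₀ hc0 (by rw [h, one_mul])))
      have k7 := hk (μ⁻¹ * c) (fun h => hμ (by
        have h8 : μ⁻¹ = 1 := mul_right_cancel₀ hc0 (by rw [h, one_mul])
        exact inv_eq_one.mp h8))
      omega)
  refine ⟨N, fun v hv => ⟨mem_E.mp (h1 hv), fun t ht ht1 => ?_⟩, ?_⟩
  · have h4 : t ∈ Submodule.span K b := by rw [hb, hspan]; exact ⟨ht, ht1⟩
    have h5 : Submodule.span K b ≤ LinearMap.ker (LinearMap.applyₗ (R := K) (M₂ := V) v :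
        Module.End K V →ₗ[K] V) := by
      rw [Submodule.span_le]
      intro z hz
      exact h2 v hv z (hfin.mem_toFinset.mpr hz)
    exact h5 h4
  · rw [hcard] at h3
    exact h3

end Pool.Agent.MR
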