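import Pool.Agent.Lib_helper48.MR.Tr
import Pool.Agent.Lib_helper54.RM.Diag

/-! The grading of an irreducible Lie algebra of operators by a diagonalisable element of the
normaliser. -/

set_option autoImplicit false

namespace Pool.Agent.MR

open Module Pool.Agent.RM

attribute [local instance 100] LieRing.ofAssociativeRing

section hom

variable {K : Type*} [Field K] {V : Type*} [AddCommGroup V] [Module K V]

/-- x is homogeneous of degree μ for s. -/
def Hm (s : V ≃ₗ[K] V) (μ : K) (x : Module.End K V) : Prop := ∀ v, s (x v) = μ • x (s v)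

theorem Hm.eig {s : V ≃ₗ[K] V} {μ : K} {x : Module.End K V} (h : Hm s μ x) {ζ : K} {v : V}
    (hv : s v = ζ • v) : s (x v) = (μ * ζ) • x v := by
  rw [h, hv, map_smul, smul_smul]

theorem Hm.mul {s : V ≃ₗ[K] V} {μ ν : K} {x y : Module.End K V} (hx : Hm s μ x) (hy : Hm s ν y) :
    Hm s (μ * ν) (x * y) := by
  intro v
  rw [Module.End.mul_apply, hx, hy, map_smul, smul_smul, Module.End.mul_apply]

theorem Hm.sub {s : V ≃ₗ[K] V} {μ : K} {x y : Module.End K V} (hx : Hm s μ x) (hy : Hm s μ y) :
    Hm s μ (x - y) := by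
  intro v
  rw [LinearMap.sub_apply, map_sub, hx, hy, LinearMap.sub_apply, smul_sub]

theorem Hm.add {s : V ≃ₗ[K] V} {μ : K} {x y : Module.End K V} (hx : Hm s μ x) (hy : Hm s μ y) :
    Hm s μ (x + y) := by
  intro v
  rw [LinearMap.add_apply, map_add, hx, hy, LinearMap.add_apply, smul_add]

theorem Hm.smul {s : V ≃ₗ[K] V} {μ : K} {x : Module.End K V} (hx : Hm s μ x) (a : K) :
    Hm s μ (a • x) := by
  intro v
  rw [LinearMap.smul_apply, map_smul, hx, LinearMap.smul_apply, smul_comm]

theorem Hm.zero {s : V ≃ₗ[K] V} {μ : K} : Hm s μ (0 : Module.End K V) := by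
  intro v
  rw [LinearMap.zero_apply, map_zero, LinearMap.zero_apply, smul_zero]

theorem Hm.brk {s : V ≃ₗ[K] V} {μ ν : K} {x y : Module.End K V} (hx : Hm s μ x) (hy : Hm s ν y) :
    Hm s (μ * ν) (x * y - y * x) := by
  refine (hx.mul hy).sub ?_
  rw [mul_comm]
  exact hy.mul hx

theorem hm_iff {s : V ≃ₗ[K] V} {μ : K} {x : Module.End K V} : Hm s μ x ↔ s.conj x = μ • x := by
  constructor
  · intro h
    ext v
    obtain ⟨w, rfl⟩ := s.surjective v
    rw [LinearEquiv.conj_apply_apply, LinearEquiv.symm_apply_apply, h, LinearMap.smul_apply]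
  · intro h v
    have h1 := LinearMap.congr_fun h (s v)
    rw [LinearEquiv.conj_apply_apply, LinearEquiv.symm_apply_apply, LinearMap.smul_apply] at h1
    exact h1

/-- Elements of degree different from 0 move the eigenspaces. -/
theorem Hm.ne {s : V ≃ₗ[K] V} {μ : K} {x : Module.End K V} (h : Hm s μ x) (hx : x ≠ 0) : μ ≠ 0 := by
  rintro rfl
  apply hx
  ext v
  have h1 := h v
  rw [zero_smul, s.map_eq_zero_iff] at h1
  rw [h1, LinearMap.zero_apply]

variable [FiniteDimensional K V]

/-- Two linear maps which agree on the eigenspaces agree. -/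
theorem ext_eig {W : Type*} [AddCommGroup W] [Module K W] {s : V ≃ₗ[K] V}
    (hD : Diag (s : Module.End K V)) {x y : V →ₗ[K] W} (h : ∀ (ζ : K) (v : V), s v = ζ • v → x v = y v) :
    x = y := by
  have h1 : (⊤ : Submodule K V) ≤ LinearMap.eqLocus x y := by
    rw [← (hD : _ = ⊤)]
    refine iSup_le fun ζ => fun v hv => ?_
    exact h ζ v (Module.End.mem_eigenspace_iff.mp hv)
  ext v
  exact h1 (Submodule.mem_top : v ∈ ⊤)

/-- Conjugation by s is diagonalisable. -/
theorem diag_conj {s : V ≃ₗ[K] V} (hD : Diag (s : Module.End K V)) :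
    Diag (s.conj : Module.End K V →ₗ[K] Module.End K V) := by
  classical
  obtain ⟨b, x, hb⟩ := exists_eigenbasis hD
  have hb' : ∀ i, s (b i) = x i • b i := hb
  have hx0 : ∀ i, x i ≠ 0 := by
    intro i h
    have h1 := hb' i
    rw [h, zero_smul] at h1
    exact b.ne_zero i (s.map_eq_zero_iff.mp h1)
  rw [Diag, eq_top_iff]
  intro T _
  let E : Fin (finrank K V) → Fin (finrank K V) → Module.End K V := fun i j =>
    b.constr K (fun l => if l = j then b i else 0)
  have hEb : ∀ i j l, E i j (b l) = if l = j then b i else 0 := fun i j l => b.constr_basis K _ _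
  have hE : ∀ i j, E i j ∈
      ⨆ μ, Module.End.eigenspace (s.conj : Module.End K V →ₗ[K] Module.End K V) μ := by
    intro i j
    refine (le_iSup (fun μ => Module.End.eigenspace
      (s.conj : Module.End K V →ₗ[K] Module.End K V) μ) (x i * (x j)⁻¹)) ?_
    rw [Module.End.mem_eigenspace_iff]
    show s.conj (E i j) = _
    rw [← hm_iff]
    intro v
    have h1 : (s : V →ₗ[K] V) ∘ₗ E i j = ((x i * (x j)⁻¹) • E i j) ∘ₗ (s : V →ₗ[K] V) := by
      apply b.ext
      intro l
      rw [LinearMap.comp_apply, LinearMap.comp_apply, LinearMap.smul_apply, hEb]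
      show s _ = _ • E i j (s (b l))
      rw [hb', map_smul, hEb]
      by_cases h : l = j
      · subst h
        rw [if_pos rfl, hb', smul_smul, mul_assoc, inv_mul_cancel₀ (hx0 l), mul_one]
      · rw [if_neg h, map_zero, smul_zero, smul_zero]
    exact LinearMap.congr_fun h1 v
  have h1 : T = ∑ i, ∑ j, b.repr (T (b j)) i • E i j := by
    apply b.ext
    intro l
    rw [LinearMap.sum_apply]
    conv_lhs => rw [← b.sum_repr (T (b l))]
    refine Finset.sum_congr rfl fun i _ => ?_
    rw [LinearMap.sum_apply, Finset.sum_eq_single l]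
    · rw [LinearMap.smul_apply, hEb, if_pos rfl]
    · intro j _ hj
      rw [LinearMap.smul_apply, hEb, if_neg (Ne.symm hj), smul_zero]
    · intro h
      exact absurd (Finset.mem_univ l) h
  rw [h1]
  exact Submodule.sum_mem _ fun i _ => Submodule.sum_mem _ fun j _ =>
    Submodule.smul_mem _ _ (hE i j)

/-- A basis of homogeneous elements. -/
theorem hom_basis {s : V ≃ₗ[K] V} (hD : Diag (s : Module.End K V))
    (L : Submodule K (Module.End K V)) (hs : ∀ x ∈ L, s.conj x ∈ L) :
    ∃ (b : Basis (Fin (finrank K L)) K L) (μ : Fin (finrank K L) → K),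
      ∀ i, Hm s (μ i) (b i : Module.End K V) := by
  let f : Module.End K L := (s.conj : Module.End K V →ₗ[K] Module.End K V).restrict hs
  have hf : Diag f := by
    refine diag_of_inj L.subtype L.injective_subtype
      (f := (s.conj : Module.End K V →ₗ[K] Module.End K V)) ?_ (diag_conj hD)
    intro w
    rfl
  obtain ⟨b, μ, hb⟩ := exists_eigenbasis hf
  refine ⟨b, μ, fun i => ?_⟩
  rw [hm_iff]
  exact congrArg Subtype.val (hb i)

/-- A subspace containing all homogeneous elements contains everything. -/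
theorem hom_ind {s : V ≃ₗ[K] V} (hD : Diag (s : Module.End K V))
    {L : Submodule K (Module.End K V)} (hs : ∀ x ∈ L, s.conj x ∈ L)
    {W : Submodule K (Module.End K V)} (h : ∀ μ, ∀ x ∈ L, Hm s μ x → x ∈ W) : L ≤ W := by
  obtain ⟨b, μ, hb⟩ := hom_basis hD L hs
  intro x hx
  have h1 : x = ∑ i, b.repr ⟨x, hx⟩ i • (b i : Module.End K V) := by
    have h2 := congrArg Subtype.val (b.sum_repr ⟨x, hx⟩)
    simp only [Submodule.coe_sum, Submodule.coe_smul] at h2
    exact h2.symm
  rw [h1]
  exact Submodule.sum_mem _ fun i _ => Submodule.smul_mem _ _ (h (μ i) _ (b i).2 (hb i))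

end hom

variable {K : Type*} [Field K] [CharZero K] [IsAlgClosed K]
variable {V : Type*} [AddCommGroup V] [Module K V] [FiniteDimensional K V]

/-- The elements of degree 1 commuting with the elements of the other degrees are 0. -/
theorem p0 [Nontrivial V] (L : LieSubalgebra K (Module.End K V))
    (hirr : ∀ W : Submodule K V, (∀ x ∈ L, ∀ v ∈ W, x v ∈ W) → W = ⊥ ∨ W = ⊤)
    (htr : ∀ x ∈ L, LinearMap.trace K V x = 0) {s : V ≃ₗ[K] V} (hD : Diag (s : Module.End K V))
    (hs : ∀ x ∈ L, s.conj x ∈ L) {ζ : K} {e : V} (he : e ≠ 0) (hse : s e = ζ • e)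
    (hline : finrank K (Module.End.eigenspace (s : Module.End K V) ζ) ≤ 1)
    {t : Module.End K V} (htL : t ∈ L) (ht1 : Hm s 1 t)
    (ht : ∀ μ, μ ≠ 1 → ∀ x ∈ L, Hm s μ x → t * x = x * t) : t = 0 := by
  let P : Submodule K (Module.End K V) :=
    { carrier := {t | t ∈ L ∧ Hm s 1 t ∧ ∀ μ, μ ≠ 1 → ∀ x ∈ L, Hm s μ x → t * x = x * t}
      add_mem' := by
        rintro a b ⟨h1, h2, h3⟩ ⟨k1, k2, k3⟩
        refine ⟨L.add_mem h1 k1, h2.add k2, fun μ hμ x hx hx' => ?_⟩
        rw [add_mul, mul_add, h3 μ hμ x hx hx', k3 μ hμ x hx hx']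
      zero_mem' := ⟨L.zero_mem, Hm.zero, fun μ hμ x hx hx' => by rw [zero_mul, mul_zero]⟩
      smul_mem' := by
        rintro a b ⟨k1, k2, k3⟩
        refine ⟨L.smul_mem a k1, k2.smul a, fun μ hμ x hx hx' => ?_⟩
        rw [smul_mul_assoc, mul_smul_comm, k3 μ hμ x hx hx'] }
  have memP : ∀ t, t ∈ P ↔ t ∈ L ∧ Hm s 1 t ∧
      ∀ μ, μ ≠ 1 → ∀ x ∈ L, Hm s μ x → t * x = x * t := fun t => Iff.rfl
  have brL : ∀ x ∈ L, ∀ y ∈ L, x * y - y * x ∈ L := fun x hx y hy => L.lie_mem hx hy
  -- P is an ideal
  have hid : ∀ x ∈ L, ∀ p ∈ P, x * p - p * x ∈ P := by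
    let W : Submodule K (Module.End K V) :=
      { carrier := {x | ∀ p ∈ P, x * p - p * x ∈ P}
        add_mem' := by
          intro a b ha hb p hp
          have h1 := P.add_mem (ha p hp) (hb p hp)
          have h2 : (a + b) * p - p * (a + b) = a * p - p * a + (b * p - p * b) := by noncomm_ring
          rw [h2]
          exact h1
        zero_mem' := by
          intro p _
          rw [zero_mul, mul_zero, sub_zero]
          exact P.zero_mem
        smul_mem' := by
          intro a b hb p hp
          rw [smul_mul_assoc, mul_smul_comm, ← smul_sub]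
          exact P.smul_mem _ (hb p hp) }
    have hLW : L.toSubmodule ≤ W := by
      refine hom_ind hD hs fun μ x hx hx' => ?_
      intro p hp
      by_cases hμ : μ = 1
      · subst hμ
        obtain ⟨hpL, hp1, hp2⟩ := (memP p).mp hp
        have hb := hx'.brk hp1
        rw [mul_one] at hb
        refine (memP _).mpr ⟨brL x hx p hpL, hb, fun ν hν y hy hy' => ?_⟩
        have h1 := hp2 ν hν y hy hy'
        have h2 := hx'.brk hy'
        rw [one_mul] at h2
        have h3 := hp2 ν hν _ (brL x hx y hy) h2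
        have h4 : (x * p - p * x) * y - y * (x * p - p * x) =
            (x * (p * y - y * p) - (p * y - y * p) * x) -
              (p * (x * y - y * x) - (x * y - y * x) * p) := by noncomm_ring
        rw [sub_eq_zero.mpr h1, sub_eq_zero.mpr h3, mul_zero, zero_mul, sub_zero, sub_zero] at h4
        exact sub_eq_zero.mp h4
      · rw [((memP p).mp hp).2.2 μ hμ x hx hx', sub_self]
        exact P.zero_mem
    exact fun x hx => hLW hx
  -- P is abelian
  have hscal : ∀ p ∈ P, ∃ a : K, p e = a • e := by
    intro p hp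
    have h1 : s (p e) = ζ • p e := by
      have h2 := ((memP p).mp hp).2.1.eig hse
      rwa [one_mul] at h2
    let e' : Module.End.eigenspace (s : Module.End K V) ζ :=
      ⟨e, Module.End.mem_eigenspace_iff.mpr hse⟩
    have he' : e' ≠ 0 := fun h => he (congrArg Subtype.val h)
    obtain ⟨a, ha⟩ := exists_smul_eq_of_finrank_eq_one (le_antisymm hline (by
      have : Nontrivial (Module.End.eigenspace (s : Module.End K V) ζ) := ⟨⟨e', 0, he'⟩⟩
      exact Module.finrank_pos)) he' ⟨p e, Module.End.mem_eigenspace_iff.mpr h1⟩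
    exact ⟨a, (congrArg Subtype.val ha).symm⟩
  have hab : ∀ p ∈ P, ∀ q ∈ P, p * q = q * p := by
    let W : Submodule K V :=
      { carrier := {v | ∀ p ∈ P, ∀ q ∈ P, p (q v) = q (p v)}
        add_mem' := by
          intro a b ha hb p hp q hq
          rw [map_add, map_add, map_add, map_add, ha p hp q hq, hb p hp q hq]
        zero_mem' := by
          intro p _ q _
          rw [map_zero, map_zero, map_zero]
        smul_mem' := by
          intro a b hb p hp q hq
          rw [map_smul, map_smul, map_smul, map_smul, hb p hp q hq] }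
    have hW : W = ⊤ := by
      refine (hirr W ?_).resolve_left ?_
      · intro u hu v hv p hp q hq
        have h1 := hv p hp _ (hid u hu q hq)
        have h2 := hv q hq _ (hid u hu p hp)
        have h3 := hv p hp q hq
        simp only [LinearMap.sub_apply, Module.End.mul_apply, map_sub] at h1 h2
        have h4 : u (p (q v)) = u (q (p v)) := congrArg u h3
        have h5 : p (q (u v)) = p (u (q v)) - (u (q (p v)) - q (u (p v))) := by rw [← h1]; abel
        have h6 : q (p (u v)) = q (u (p v)) - (u (p (q v)) - p (u (q v))) := by rw [← h2]; abel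
        rw [h5, h6, h4]
        abel
      · intro h
        have h1 : e ∈ W := by
          intro p hp q hq
          obtain ⟨a, ha⟩ := hscal p hp
          obtain ⟨b, hb⟩ := hscal q hq
          rw [ha, hb, map_smul, map_smul, ha, hb, smul_smul, smul_smul, mul_comm]
        rw [h, Submodule.mem_bot] at h1
        exact he h1
    intro p hp q hq
    ext v
    have h1 : v ∈ W := by rw [hW]; exact Submodule.mem_top
    exact h1 p hp q hq
  have h1 := abel_zero L hirr htr P (fun p hp => hp.1) hid hab
  have h2 : t ∈ P := ⟨htL, ht1, ht⟩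
  rw [h1] at h2
  exact (Submodule.mem_bot K).mp h2

end Pool.Agent.MR
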