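import Mathlib

/-! Irreducible Lie algebras of operators with trace zero: trivial radical, nondegenerate trace
form. -/

set_option autoImplicit false

namespace Pool.Agent.MR

open Module LieModule LieAlgebra

attribute [local instance 100] LieRing.ofAssociativeRing

variable {K : Type*} [Field K] [CharZero K] [IsAlgClosed K]
variable {V : Type*} [AddCommGroup V] [Module K V] [FiniteDimensional K V]

/-- Irreducible Lie algebras of operators with trace zero have trivial radical. -/
theorem triv_rad [Nontrivial V] (L : LieSubalgebra K (Module.End K V))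
    (hirr : ∀ W : Submodule K V, (∀ x ∈ L, ∀ v ∈ W, x v ∈ W) → W = ⊥ ∨ W = ⊤)
    (htr : ∀ x ∈ L, LinearMap.trace K V x = 0) : HasTrivialRadical K L := by
  have h1 : LieModule.IsIrreducible K L V := by
    refine LieModule.IsIrreducible.mk fun N hN => ?_
    rcases hirr N.toSubmodule (fun x hx v hv => N.lie_mem (x := (⟨x, hx⟩ : L)) hv) with h | h
    · exact absurd (by simpa using h) hN
    · simpa using h
  exact hasTrivialRadical_of_isIrreducible_of_isFaithful K L V (fun x => htr x.1 x.2)

/-- The trace form is nondegenerate. -/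
theorem tr_nondeg [Nontrivial V] (L : LieSubalgebra K (Module.End K V))
    (hirr : ∀ W : Submodule K V, (∀ x ∈ L, ∀ v ∈ W, x v ∈ W) → W = ⊥ ∨ W = ⊤)
    (htr : ∀ x ∈ L, LinearMap.trace K V x = 0) (x : Module.End K V) (hx : x ∈ L)
    (h : ∀ y ∈ L, LinearMap.trace K V (x * y) = 0) : x = 0 := by
  have hrad := triv_rad L hirr htr
  let R : LieIdeal K L :=
    { carrier := {x | ∀ y : L, LinearMap.trace K V ((x : Module.End K V) * y) = 0}
      add_mem' := by
        intro a b ha hb y
        show LinearMap.trace K V (((a : Module.End K V) + b) * y) = 0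
        rw [add_mul, map_add, ha, hb, add_zero]
      zero_mem' := by
        intro y
        show LinearMap.trace K V ((0 : Module.End K V) * y) = 0
        rw [zero_mul, map_zero]
      smul_mem' := by
        intro c a ha y
        show LinearMap.trace K V ((c • (a : Module.End K V)) * y) = 0
        rw [smul_mul_assoc, map_smul, ha, smul_zero]
      lie_mem := by
        intro z a ha y
        show LinearMap.trace K V (((z : Module.End K V) * a - a * z) * y) = 0
        have h1 := ha ⁅y, z⁆
        have h2 : ((⁅y, z⁆ : L) : Module.End K V) = (y : Module.End K V) * z - z * y := rfl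
        rw [h2, mul_sub, map_sub, ← mul_assoc, ← mul_assoc] at h1
        rw [sub_mul, map_sub]
        have h3 : LinearMap.trace K V ((z : Module.End K V) * a * y) =
            LinearMap.trace K V ((a : Module.End K V) * y * z) := by
          rw [mul_assoc, LinearMap.trace_mul_comm]
        rw [h3]
        exact h1 }
  have h0 : LieModule.traceForm K R V = 0 := by
    ext a b
    exact a.2 b.1
  have h1 := LieModule.isNilpotent_derivedSeries_of_traceForm_eq_zero h0
  set D : LieIdeal K R := derivedSeries K R 1
  have h2 : LieRing.IsNilpotent D := by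
    rw [LieAlgebra.isNilpotent_iff_forall (R := K)]
    rintro ⟨a, ha⟩
    have h3 := (LieModule.isNilpotent_iff_forall' (R := K)).mp h1 ⟨a, ha⟩
    have h4 : _root_.IsNilpotent ((a : L) : Module.End K V) := h3
    have h6 : _root_.IsNilpotent (LieAlgebra.ad K L (a : L)) :=
      LieAlgebra.isNilpotent_ad_of_isNilpotent (L := L) h4
    have h7 : _root_.IsNilpotent (LieAlgebra.ad K R a) :=
      LieSubalgebra.isNilpotent_ad_of_isNilpotent_ad (R : LieSubalgebra K L) (x := a) h6
    exact LieSubalgebra.isNilpotent_ad_of_isNilpotent_ad (D : LieSubalgebra K R) (x := ⟨a, ha⟩) h7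
  have h3 : IsSolvable R := by
    obtain ⟨k, hk⟩ := IsSolvable.solvable K D
    rw [LieIdeal.derivedSeries_eq_bot_iff] at hk
    refine IsSolvable.mk (k := k + 1) (R := K) ?_
    show derivedSeriesOfIdeal K R (k + 1) ⊤ = ⊥
    rw [derivedSeriesOfIdeal_add]
    exact hk
  have h4 : R = ⊥ := by
    have h5 : R ≤ radical K L := (LieIdeal.solvable_iff_le_radical K L R).mp h3
    rw [HasTrivialRadical.radical_eq_bot] at h5
    exact le_bot_iff.mp h5
  have h5 : (⟨x, hx⟩ : L) ∈ R := fun y => h y.1 y.2
  rw [h4, LieSubmodule.mem_bot] at h5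
  exact congrArg Subtype.val h5

/-- Abelian ideals are zero. -/
theorem abel_zero [Nontrivial V] (L : LieSubalgebra K (Module.End K V))
    (hirr : ∀ W : Submodule K V, (∀ x ∈ L, ∀ v ∈ W, x v ∈ W) → W = ⊥ ∨ W = ⊤)
    (htr : ∀ x ∈ L, LinearMap.trace K V x = 0) (P : Submodule K (Module.End K V)) (hP : P ≤ L.toSubmodule)
    (hid : ∀ x ∈ L, ∀ p ∈ P, x * p - p * x ∈ P) (hab : ∀ p ∈ P, ∀ q ∈ P, p * q = q * p) :
    P = ⊥ := by
  have hrad := triv_rad L hirr htr
  let R : LieIdeal K L :=
    { P.comap (L.toSubmodule.subtype) with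
      lie_mem := by
        intro z a ha
        exact hid z.1 z.2 a.1 ha }
  have h1 : IsLieAbelian R := by
    refine ⟨fun a b => ?_⟩
    apply Subtype.ext
    apply Subtype.ext
    have h1 : (a.1.1 : Module.End K V) * b.1.1 = b.1.1 * a.1.1 := hab _ a.2 _ b.2
    show (a.1.1 : Module.End K V) * b.1.1 - b.1.1 * a.1.1 = 0
    rw [h1, sub_self]
  have h2 : R = ⊥ := by
    have h5 : R ≤ radical K L := (LieIdeal.solvable_iff_le_radical K L R).mp inferInstance
    rw [HasTrivialRadical.radical_eq_bot] at h5
    exact le_bot_iff.mp h5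
  rw [eq_bot_iff]
  intro p hp
  have h5 : (⟨p, hP hp⟩ : L) ∈ R := hp
  rw [h2, LieSubmodule.mem_bot] at h5
  exact congrArg Subtype.val h5

end Pool.Agent.MR
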