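import Pool.Agent.Lib_helper48.MR.S

/-! A diagonalisable element normalising an irreducible Lie algebra, more than three quarters of
whose eigenvalues are equal and whose other eigenvalues are simple. -/

set_option autoImplicit false
set_option linter.unusedSectionVars false

namespace Pool.Agent.MR

open Module Pool.Agent.RM

attribute [local instance 100] LieRing.ofAssociativeRing

variable {K : Type*} [Field K] [CharZero K] [IsAlgClosed K]
variable {V : Type*} [AddCommGroup V] [Module K V] [FiniteDimensional K V]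

theorem line_U (L : LieSubalgebra K (Module.End K V)) {s : V ≃ₗ[K] V} {c : K} (hc0 : c ≠ 0)
    (hk : ∀ ζ : K, ζ ≠ c → finrank K (Module.End.eigenspace (s : Module.End K V) ζ) ≤ 1)
    {N : Submodule K V} (hN : ∀ v ∈ N, s v = c • v ∧ ∀ t ∈ L, Hm s 1 t → t v = 0)
    (μ : K) (hμ0 : μ ≠ 0) (hμ : μ ≠ 1) :
    ∃ g : V, ∀ x ∈ L, ∀ y ∈ L, Hm s μ x → Hm s μ⁻¹ y → ∀ v ∈ N, ∃ a : K, x (y v) = a • g := by
  have k6 : μ * c ≠ c := fun h => hμ (mul_right_cancel₀ hc0 (by rw [h, one_mul]))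
  have k7 : μ⁻¹ * c ≠ c := fun h => hμ (by
    have h8 : μ⁻¹ = 1 := mul_right_cancel₀ hc0 (by rw [h, one_mul])
    exact inv_eq_one.mp h8)
  have hcomm : ∀ x ∈ L, ∀ y ∈ L, Hm s μ x → Hm s μ⁻¹ y → ∀ v ∈ N, x (y v) = y (x v) := by
    intro x hx y hy hx' hy' v hv
    have h2 := hx'.brk hy'
    rw [mul_inv_cancel₀ hμ0] at h2
    exact sub_eq_zero.mp ((hN v hv).2 _ (L.lie_mem hx hy) h2)
  by_cases h : ∃ x ∈ L, ∃ y ∈ L, Hm s μ x ∧ Hm s μ⁻¹ y ∧ ∃ v ∈ N, x (y v) ≠ 0
  · obtain ⟨x₀, hx₀, y₀, hy₀, hx₀', hy₀', v₀, hv₀, hne⟩ := h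
    have hc1 := hcomm x₀ hx₀ y₀ hy₀ hx₀' hy₀' v₀ hv₀
    have he0 : y₀ v₀ ≠ 0 := fun h => hne (by rw [h, map_zero])
    have hf0 : x₀ v₀ ≠ 0 := fun h => hne (by rw [hc1, h, map_zero])
    refine ⟨y₀ (x₀ v₀), fun x hx y hy hx' hy' v hv => ?_⟩
    obtain ⟨φ, hφ⟩ := line_span (hk _ k7) he0 (hy₀'.eig (hN v₀ hv₀).1) (hy'.eig (hN v hv).1)
    obtain ⟨ψ, hψ⟩ := line_span (hk _ k6) hf0 (hx₀'.eig (hN v₀ hv₀).1) (hx'.eig (hN v₀ hv₀).1)
    refine ⟨φ * ψ, ?_⟩
    rw [hφ, map_smul, hcomm x hx y₀ hy₀ hx' hy₀' v₀ hv₀, hψ, map_smul, smul_smul]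
  · push Not at h
    exact ⟨0, fun x hx y hy hx' hy' v hv => ⟨0, by rw [h x hx y hy hx' hy' v hv, zero_smul]⟩⟩

/-- More than three quarters of the eigenvalues are equal, the others are simple. -/
theorem mr_U (L : LieSubalgebra K (Module.End K V))
    (htr : ∀ x ∈ L, LinearMap.trace K V x = 0)
    (hirr : ∀ W : Submodule K V, (∀ x ∈ L, ∀ v ∈ W, x v ∈ W) → W = ⊥ ∨ W = ⊤)
    {s : V ≃ₗ[K] V} (hs : ∀ x ∈ L, s.conj x ∈ L) (hD : Diag (s : Module.End K V)) {c : K} {r : ℕ}
    (hc : finrank K (Module.End.eigenspace (s : Module.End K V) c) + r = finrank K V)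
    (hk : ∀ ζ : K, ζ ≠ c → finrank K (Module.End.eigenspace (s : Module.End K V) ζ) ≤ 1)
    (hr0 : 0 < r) (hr : 4 * r < finrank K V) :
    ∃ μ : K, μ ≠ 1 ∧ ∃ y ∈ L, y ≠ 0 ∧ Hm s μ y ∧ finrank K (LinearMap.range y) ≤ 2 := by
  classical
  have hnt : Nontrivial V := Module.nontrivial_of_finrank_pos (R := K) (by omega)
  have hc0 : c ≠ 0 := by
    rintro rfl
    have h1 : Module.End.eigenspace (s : Module.End K V) 0 = ⊥ := by
      rw [eq_bot_iff]
      intro v hv
      rw [mem_E, zero_smul, s.map_eq_zero_iff] at hv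
      rw [hv]
      exact Submodule.zero_mem _
    rw [h1, finrank_bot] at hc
    omega
  obtain ⟨b, x, hb⟩ := exists_eigenbasis hD
  have hb' : ∀ i, s (b i) = x i • b i := hb
  have hcount := eig_count b x hb
  obtain ⟨I, hI⟩ : ∃ I : Finset (Fin (finrank K V)), I = Finset.univ.filter fun i => ¬ x i = c :=
    ⟨_, rfl⟩
  have memI : ∀ i, i ∈ I ↔ x i ≠ c := fun i => by rw [hI]; simp
  have hIr : I.card = r := by
    have h3 := Finset.card_filter_add_card_filter_not (s := Finset.univ) (fun i => x i = c)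
    rw [← hcount c, Finset.card_univ, Fintype.card_fin, ← hI] at h3
    omega
  obtain ⟨i₀, hi₀⟩ : I.Nonempty := Finset.card_pos.mp (by omega)
  have hi₀' := (memI i₀).mp hi₀
  have hx0 : ∀ i, x i ≠ 0 := by
    intro i h
    have h1 := hb' i
    rw [h, zero_smul] at h1
    exact b.ne_zero i (s.map_eq_zero_iff.mp h1)
  have hex : ∀ (ζ : K) (e : V), e ≠ 0 → s e = ζ • e → ∃ i, x i = ζ := by
    intro ζ e he0 he
    by_contra hne
    push Not at hne
    have h2 : finrank K (Module.End.eigenspace (s : Module.End K V) ζ) = 0 := by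
      rw [hcount, Finset.filter_false_of_mem (fun i _ => hne i), Finset.card_empty]
    rw [Submodule.finrank_eq_zero] at h2
    have h3 : e ∈ Module.End.eigenspace (s : Module.End K V) ζ := mem_E.mpr he
    rw [h2, Submodule.mem_bot] at h3
    exact he0 h3
  by_cases hT : ∃ t ∈ L, Hm s 1 t ∧ t ≠ 0 ∧ ∀ (ζ : K) (e : V), ζ ≠ c → s e = ζ • e → t e = 0
  · obtain ⟨t, ht, ht1, ht0, htk⟩ := hT
    have h1 : ∃ μ : K, μ ≠ 1 ∧ ∃ x ∈ L, Hm s μ x ∧ t * x ≠ x * t := by
      by_contra hne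
      push Not at hne
      exact ht0 (p0 L hirr htr hD hs (b.ne_zero i₀) (hb' i₀) (hk _ hi₀') ht ht1
        fun μ hμ x hx hx' => hne μ hμ x hx hx')
    obtain ⟨μ, hμ, z, hz, hz', htz⟩ := h1
    have hz0 : z ≠ 0 := by
      rintro rfl
      exact htz (by rw [mul_zero, zero_mul])
    have hμ0 := hz'.ne hz0
    have hy : Hm s μ (t * z - z * t) := by
      have h2 := ht1.brk hz'
      rwa [one_mul] at h2
    exact ⟨μ, hμ, t * z - z * t, L.lie_mem ht hz, sub_ne_zero.mpr htz, hy,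
      kill_rank hD hc0 hk hμ0 hμ hy fun ζ e h2 h3 h4 => brk_kill htk hz' h2 h3 h4⟩
  · exfalso
    push Not at hT
    have hone : finrank K (One L s) ≤ I.card := by
      refine one_le L hk b x hb' I (fun i hi => (memI i).mp hi) fun t ht ht1 htP => ?_
      by_contra ht0
      obtain ⟨ζ, e, hζ, he, hte⟩ := hT t ht ht1 ht0
      apply hte
      have he0 : e ≠ 0 := by
        rintro rfl
        exact hte (map_zero t)
      obtain ⟨i, rfl⟩ := hex ζ e he0 he
      obtain ⟨a, rfl⟩ := line_span (hk _ hζ) (b.ne_zero i) (hb' i) he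
      rw [map_smul, htP i ((memI i).mpr hζ), smul_zero]
    obtain ⟨N, hN, hNd⟩ := one_ker L hirr htr hD hs hc0 hk hi₀' (b.ne_zero i₀) (hb' i₀)
    have hL : L ≠ ⊥ := by
      intro h
      obtain ⟨e, he⟩ := exists_ne (0 : V)
      rcases hirr (K ∙ e) (fun x hx v hv => by
        rw [h, LieSubalgebra.mem_bot] at hx
        rw [hx, LinearMap.zero_apply]
        exact Submodule.zero_mem _) with h1 | h1
      · exact he (Submodule.span_singleton_eq_bot.mp h1)
      · have h2 := finrank_span_singleton (K := K) he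
        rw [h1, finrank_top] at h2
        omega
    obtain ⟨n, β, β', μ, κ, hκ, hβ, hcas⟩ := cas L hirr htr hD hs hL
    -- the lines
    have hg : ∀ i, ∃ g : V, i ∈ I → ∀ y ∈ L, ∀ z ∈ L, Hm s (c / x i) y → Hm s (c / x i)⁻¹ z →
        ∀ v ∈ N, ∃ a : K, y (z v) = a • g := by
      intro i
      by_cases hi : i ∈ I
      · obtain ⟨g, hg⟩ := line_U L hc0 hk hN (c / x i) (div_ne_zero hc0 (hx0 i)) (by
          rw [Ne, div_eq_one_iff_eq (hx0 i)]
          exact fun h => (memI i).mp hi h.symm)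
        exact ⟨g, fun _ => hg⟩
      · exact ⟨0, fun h => absurd h hi⟩
    choose g hg using hg
    have hNle : N ≤ Submodule.span K (↑(I.image g) : Set V) := by
      intro v hv
      have h1 := hcas v
      have h2 : v = κ⁻¹ • ∑ i, β i (β' i v) := by
        rw [h1, smul_smul, inv_mul_cancel₀ hκ, one_smul]
      rw [h2]
      refine Submodule.smul_mem _ _ (Submodule.sum_mem _ fun j _ => ?_)
      obtain ⟨hj1, hj2, hj3, hj4, hj5⟩ := hβ j
      by_cases hz : β' j v = 0
      · rw [hz, map_zero]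
        exact Submodule.zero_mem _
      · have h3 : s (β' j v) = ((μ j)⁻¹ * c) • β' j v := hj5.eig (hN v hv).1
        obtain ⟨i, hi⟩ := hex _ _ hz h3
        have h4 : (μ j)⁻¹ * c ≠ c := by
          intro h
          have h8 : (μ j)⁻¹ = 1 := mul_right_cancel₀ hc0 (by rw [h, one_mul])
          rw [h8] at hj5
          exact hz ((hN v hv).2 _ hj2 hj5)
        have hiI : i ∈ I := (memI i).mpr (by rw [hi]; exact h4)
        have h5 : c / x i = μ j := by
          rw [hi]
          field_simp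
        obtain ⟨a, ha⟩ := hg i hiI (β j) hj1 (β' j) hj2 (by rw [h5]; exact hj4)
          (by rw [h5]; exact hj5) v hv
        rw [ha]
        refine Submodule.smul_mem _ _ (Submodule.subset_span ?_)
        exact Finset.mem_coe.mpr (Finset.mem_image_of_mem g hiI)
    have h1 := Submodule.finrank_mono hNle
    have h2 := finrank_span_finset_le_card (R := K) (I.image g)
    have h3 : (I.image g).card ≤ I.card := Finset.card_image_le
    have h4 : finrank K (Submodule.span K (↑(I.image g) : Set V)) ≤ (I.image g).card := h2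
    omega

end Pool.Agent.MR
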